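import Pool.Agent.Run7.h260.VC.P6
import Pool.Agent.W293.HT.CP1

/-! P6 of helper260's project VU: the potential on the real directions through the critical point -/

set_option autoImplicit false

namespace Run7.h415.VU

open Filter Topology Metric Function
open Run7.h260.VC
open scoped Real

lemma FF_min : ∃ δ : ℝ, 0 < δ ∧ ∀ z : ℂ, ‖z - 1 / 3‖ ≤ δ → z ∈ Bh ∧ ∀ s : ℝ, |s| ≤ δ →
    (FF z).re + s * (ls z).re + s ^ 2 / 2 ≤ (FF (z + s)).re := by
  have hcont : ContinuousAt (deriv ls) (1 / 3 : ℂ) :=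
    (ls_analytic (z := 1 / 3) (by norm_num) (by norm_num)).deriv.continuousAt
  have h3 : ∀ᶠ w in 𝓝 (1 / 3 : ℂ), 1 < (deriv ls w).re := by
    have h4 : Tendsto (fun w => (deriv ls w).re) (𝓝 (1 / 3 : ℂ)) (𝓝 (deriv ls (1 / 3)).re) :=
      (Complex.continuous_re.tendsto _).comp hcont
    rw [ls_third_deriv.deriv, Complex.ofReal_re] at h4
    refine h4.eventually_const_lt ?_
    have h5 : √3 < 2 := by
      rw [Real.sqrt_lt' (by norm_num)]; norm_num
    have h6 := Real.pi_gt_three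
    have h7 : (0 : ℝ) < √3 := by positivity
    rw [lt_div_iff₀ h7]
    linarith
  have h4 : ∀ᶠ w in 𝓝 (1 / 3 : ℂ), w ∈ Bh := Bh_open.mem_nhds third_mem
  obtain ⟨r, hr, h5⟩ := Metric.eventually_nhds_iff_ball.1 (h3.and h4)
  refine ⟨r / 4, by positivity, fun z hz => ⟨(h5 z (by
    rw [mem_ball, dist_eq_norm]; linarith)).2, fun s hs => ?_⟩⟩
  have hmem : ∀ x : ℝ, |x| ≤ r / 4 → z + x ∈ ball (1 / 3 : ℂ) r := by
    intro x hx
    rw [mem_ball, dist_eq_norm]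
    have e : z + x - 1 / 3 = (z - 1 / 3) + (x : ℂ) := by ring
    rw [e]
    refine (norm_add_le _ _).trans_lt ?_
    rw [Complex.norm_real, Real.norm_eq_abs]
    linarith
  have hadd : ∀ x : ℝ, HasDerivAt (fun x : ℝ => z + (x : ℂ)) 1 x := by
    intro x
    have h2 : HasDerivAt (fun t : ℝ => (t : ℂ)) 1 x := Complex.ofRealCLM.hasDerivAt
    exact h2.const_add z
  have hre : ∀ (F : ℂ → ℂ) (F' : ℂ) (x : ℝ), HasDerivAt F F' (z + x) →
      HasDerivAt (fun x : ℝ => (F (z + x)).re) F'.re x := by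
    intro F F' x h
    have h1 := h.comp_of_eq x (hadd x) rfl
    have h2 := Complex.reCLM.hasFDerivAt.comp_hasDerivAt x h1
    refine h2.congr_deriv ?_
    simp
  have h6 := Pool.Agent.W293.HT.quad_bound
    (f := fun x : ℝ => -(FF (z + x)).re + x * (ls z).re)
    (f' := fun x : ℝ => -(ls (z + x)).re + (ls z).re)
    (f'' := fun x : ℝ => -(deriv ls (z + x)).re) (r := r / 4) (c := 1) (x0 := 0)
    (fun x hx => by
      have h7 := (hre FF _ x (FF_deriv (h5 _ (hmem x hx)).2)).neg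
      have h8 : HasDerivAt (fun x : ℝ => x * (ls z).re) (ls z).re x := by
        simpa using (hasDerivAt_id x).mul_const (ls z).re
      exact h7.add h8)
    (fun x hx => by
      have h9 := (h5 _ (hmem x hx)).2
      have h7 := (hre ls _ x ((ls_hasDerivAt (Bh_re h9).1 (Bh_re h9).2).differentiableAt.hasDerivAt)).neg
      exact h7.add_const _)
    (fun x hx => by
      have := (h5 _ (hmem x hx)).1
      show -(deriv ls (z + x)).re ≤ -1
      linarith)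
    (by rw [abs_zero]; positivity)
    (by simp) hs
  simp only [Complex.ofReal_zero, add_zero, zero_mul, sub_zero] at h6
  linarith

lemma FF_max : ∃ δ : ℝ, 0 < δ ∧ ∀ z : ℂ, ‖z - 2 / 3‖ ≤ δ → z ∈ Bh ∧ ∀ s : ℝ, |s| ≤ δ →
    (FF (z + s)).re ≤ (FF z).re + s * (ls z).re - s ^ 2 / 2 := by
  obtain ⟨δ, hδ, h⟩ := FF_min
  refine ⟨δ / 2, by positivity, fun z hz => ?_⟩
  have h1 : ‖(1 - z) - 1 / 3‖ ≤ δ := by
    have : (1 - z) - 1 / 3 = -(z - 2 / 3) := by ring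
    rw [this, norm_neg]
    linarith
  have hB := Bh_symm (h _ h1).1
  rw [sub_sub_cancel] at hB
  refine ⟨hB, fun s hs => ?_⟩
  have h2 := (h _ h1).2 (-s) (by rw [abs_neg]; linarith)
  have h3 : ‖(1 - (z + s)) - 1 / 3‖ ≤ δ := by
    have e : (1 - (z + s)) - 1 / 3 = -(z - 2 / 3) + -(s : ℂ) := by ring
    rw [e]
    refine (norm_add_le _ _).trans ?_
    rw [norm_neg, norm_neg, Complex.norm_real, Real.norm_eq_abs]
    linarith
  have h4 := FF_symm (h _ h3).1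
  have h5 := FF_symm (h _ h1).1
  rw [sub_sub_cancel] at h4 h5
  have e2 : (1 - z) + ((-s : ℝ) : ℂ) = 1 - (z + s) := by push_cast; ring
  rw [e2, ls_symm] at h2
  rw [h4, h5, Complex.neg_re, Complex.neg_re]
  have : (-s) ^ 2 = s ^ 2 := by ring
  rw [this] at h2
  linarith

/-- **P6** -/
theorem p6 : ∃ δ : ℝ, 0 < δ ∧ δ ≤ 1 / 1000000 ∧ ∀ (n : ℕ) [NeZero n] (χ : ℂ), ‖χ‖ ≤ δ →
  ∀ t : Ix n → ℝ, t none = 0 → (∀ j, |t j| ≤ δ) →
    (Qp n (Up n (bet χ) χ + rc t)).re ≤ (Gv n χ).re - ∑ j, t j ^ 2 := by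
  obtain ⟨δ1, hδ1, h1⟩ := FF_min
  obtain ⟨δ2, hδ2, h2⟩ := FF_max
  obtain ⟨d, hd⟩ : ∃ d : ℝ, d = min δ1 δ2 / 4 := ⟨_, rfl⟩
  have hd0 : 0 < d := by
    rw [hd]
    have : 0 < min δ1 δ2 := lt_min hδ1 hδ2
    positivity
  have hd1 : 4 * d ≤ δ1 := by rw [hd]; have := min_le_left δ1 δ2; linarith
  have hd2 : 4 * d ≤ δ2 := by rw [hd]; have := min_le_right δ1 δ2; linarith
  have hb : ∀ᶠ χ in 𝓝 (0 : ℂ), ‖bet χ‖ < d := by
    have h3 : Tendsto (fun χ => ‖bet χ‖) (𝓝 0) (𝓝 ‖(0 : ℂ)‖) := bet_tend.norm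
    rw [norm_zero] at h3
    exact h3.eventually_lt_const hd0
  obtain ⟨r, hr, h3⟩ := Metric.eventually_nhds_iff_ball.1 (bet_crit.and hb)
  obtain ⟨δ, hδ⟩ : ∃ δ : ℝ, δ = min (min (r / 2) d) (1 / 1000000) := ⟨_, rfl⟩
  have hδ0 : 0 < δ := by rw [hδ]; exact lt_min (lt_min (by positivity) hd0) (by norm_num)
  have hδr : δ ≤ r / 2 := by rw [hδ]; exact (min_le_left _ _).trans (min_le_left _ _)
  have hδd : δ ≤ d := by rw [hδ]; exact (min_le_left _ _).trans (min_le_right _ _)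
  have hδs : δ ≤ 1 / 1000000 := by rw [hδ]; exact min_le_right _ _
  refine ⟨δ, hδ0, hδs, ?_⟩
  intro n _ χ hχ t ht0 ht
  obtain ⟨hcr, hbχ⟩ := h3 χ (by rw [mem_ball_zero_iff]; linarith)
  obtain ⟨b, hbd⟩ : ∃ b : ℂ, b = 1 / 3 + bet χ := ⟨_, rfl⟩
  obtain ⟨ξ, hξd⟩ : ∃ ξ : ℂ, ξ = χ / (2 * π) := ⟨_, rfl⟩
  have hξ : ‖ξ‖ ≤ d := by
    have hpi := Real.pi_gt_three
    have e : ‖(2 * π : ℂ)‖ = 2 * π := by
      have : (2 * π : ℂ) = ((2 * π : ℝ) : ℂ) := by push_cast; rfl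
      rw [this, Complex.norm_real, Real.norm_eq_abs, abs_of_pos (by positivity)]
    rw [hξd, norm_div, e, div_le_iff₀ (by positivity)]
    nlinarith
  have hb3 : ‖b - 1 / 3‖ ≤ d := by
    rw [hbd, add_sub_cancel_left]
    exact hbχ.le
  have m1 : ‖2 * b - 2 / 3‖ ≤ δ2 := by
    have e : 2 * b - 2 / 3 = 2 * (b - 1 / 3) := by ring
    rw [e, norm_mul, Complex.norm_ofNat]
    linarith
  have m2 : ‖b + ξ - 1 / 3‖ ≤ δ1 := by
    have e : b + ξ - 1 / 3 = (b - 1 / 3) + ξ := by ring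
    rw [e]
    refine (norm_add_le _ _).trans ?_
    linarith
  have m3 : ‖b - ξ - 1 / 3‖ ≤ δ1 := by
    have e : b - ξ - 1 / 3 = (b - 1 / 3) - ξ := by ring
    rw [e]
    refine (norm_sub_le _ _).trans ?_
    linarith
  have k1 := (h2 _ m1).2
  have k2 := (h1 _ m2).2
  have k3 := (h1 _ m3).2
  have ht4 : ∀ j, |t j| ≤ d := fun j => (ht j).trans hδd
  -- the defect
  have hD : 2 * (ls (2 * b)).re - (ls (b + ξ)).re - (ls (b - ξ)).re = 0 := by
    have h5 := congrArg Complex.re hcr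
    unfold Dd at h5
    rw [← hbd, ← hξd, Complex.sub_re, Complex.sub_re, Complex.zero_re] at h5
    have h6 : (2 * ls (2 * b)).re = 2 * (ls (2 * b)).re := by simp
    rw [h6] at h5
    exact h5
  have hterm : ∀ r : Fin n, (qt (Av (Up n (bet χ) χ + rc t) r) (Av (Up n (bet χ) χ + rc t) (r + 1))
      (Bv (Up n (bet χ) χ + rc t) r) (Xv (Up n (bet χ) χ + rc t))).re ≤
      (qt b b b ξ).re + (-(π * b.im) * (t (ai (r + 1)) - t (ai r))) +
      ((t (ai r) + t (bi r)) * (ls (2 * b)).re + (t (ai (r + 1)) + t (bi r)) * (ls (2 * b)).re) -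
      (t (ai r) + t (bi r)) * ((ls (b + ξ)).re + (ls (b - ξ)).re) - t (ai r) ^ 2 - t (bi r) ^ 2 := by
    intro r
    have c1 : Av (Up n (bet χ) χ + rc t) r = b + (t (ai r) : ℝ) := by
      rw [hbd]; simp [Av, Up, rc, ai]; ring
    have c2 : Av (Up n (bet χ) χ + rc t) (r + 1) = b + (t (ai (r + 1)) : ℝ) := by
      rw [hbd]; simp [Av, Up, rc, ai]; ring
    have c3 : Bv (Up n (bet χ) χ + rc t) r = b + (t (bi r) : ℝ) := by
      rw [hbd]; simp [Bv, Up, rc, bi]; ring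
    have c4 : Xv (Up n (bet χ) χ + rc t) = ξ := by
      rw [hξd]; simp [Xv, Up, rc, ht0]
    rw [c1, c2, c3, c4]
    unfold qt
    have e1 : b + (t (ai r) : ℝ) + (b + (t (bi r) : ℝ)) = 2 * b + ((t (ai r) + t (bi r) : ℝ) : ℂ) := by
      push_cast; ring
    have e2 : b + (t (ai (r + 1)) : ℝ) + (b + (t (bi r) : ℝ)) =
        2 * b + ((t (ai (r + 1)) + t (bi r) : ℝ) : ℂ) := by
      push_cast; ring
    have e3 : b + (t (bi r) : ℝ) + ξ = b + ξ + (t (bi r) : ℝ) := by ring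
    have e4 : b + (t (bi r) : ℝ) - ξ = b - ξ + (t (bi r) : ℝ) := by ring
    have e5 : b + (t (ai r) : ℝ) + ξ = b + ξ + (t (ai r) : ℝ) := by ring
    have e6 : b + (t (ai r) : ℝ) - ξ = b - ξ + (t (ai r) : ℝ) := by ring
    have e7 : (π * Complex.I * (b + (t (ai (r + 1)) : ℝ) - (b + (t (ai r) : ℝ))) * (b + (t (bi r) : ℝ))).re =
        -(π * b.im) * (t (ai (r + 1)) - t (ai r)) := by
      have : (π * Complex.I * (b + (t (ai (r + 1)) : ℝ) - (b + (t (ai r) : ℝ))) * (b + (t (bi r) : ℝ))) =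
          ((π * (t (ai (r + 1)) - t (ai r)) : ℝ) : ℂ) * (Complex.I * (b + (t (bi r) : ℝ))) := by
        push_cast; ring
      rw [this, Complex.re_ofReal_mul]
      have h8 : (Complex.I * (b + (t (bi r) : ℝ))).re = -b.im := by simp
      rw [h8]
      ring
    have e8 : (π * Complex.I * (b - b) * b).re = 0 := by simp
    have e9 : b + b = 2 * b := by ring
    rw [e1, e2, e3, e4, e5, e6, e9]
    simp only [Complex.add_re, Complex.sub_re]
    rw [e7, e8]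
    have a1 := ht4 (ai r)
    have a2 := ht4 (bi r)
    have a3 := ht4 (ai (r + 1))
    have g1 := k1 (t (ai r) + t (bi r)) ((abs_add_le _ _).trans (by linarith))
    have g2 := k1 (t (ai (r + 1)) + t (bi r)) ((abs_add_le _ _).trans (by linarith))
    have g3 := k2 (t (bi r)) (by linarith)
    have g4 := k3 (t (bi r)) (by linarith)
    have g5 := k2 (t (ai r)) (by linarith)
    have g6 := k3 (t (ai r)) (by linarith)
    nlinarith [sq_nonneg (t (ai r) + t (bi r)), sq_nonneg (t (ai (r + 1)) + t (bi r))]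
  have hre : (Qp n (Up n (bet χ) χ + rc t)).re = ∑ r : Fin n, (qt (Av (Up n (bet χ) χ + rc t) r)
      (Av (Up n (bet χ) χ + rc t) (r + 1)) (Bv (Up n (bet χ) χ + rc t) r)
      (Xv (Up n (bet χ) χ + rc t))).re := by
    unfold Qp
    rw [Complex.re_sum]
  have hG : (Gv n χ).re = ∑ _r : Fin n, (qt b b b ξ).re := by
    unfold Gv Qp
    rw [Complex.re_sum]
    refine Finset.sum_congr rfl fun r _ => ?_
    rw [Av_Up, Av_Up, Bv_Up, Xv_Up, ← hbd, ← hξd]
  rw [hre, hG]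
  refine (Finset.sum_le_sum fun r _ => hterm r).trans (le_of_eq ?_)
  have hsh : ∑ r : Fin n, t (ai (r + 1)) = ∑ r : Fin n, t (ai r) :=
    Equiv.sum_comp (Equiv.addRight (1 : Fin n)) fun r => t (ai r)
  have hsum : ∑ j, t j ^ 2 = t none ^ 2 + (∑ r, t (ai r) ^ 2 + ∑ r, t (bi r) ^ 2) :=
    sum_Ix (g := fun j => t j ^ 2)
  rw [hsum, ht0]
  obtain ⟨α, hα⟩ : ∃ α : ℝ, α = (ls (2 * b)).re := ⟨_, rfl⟩
  obtain ⟨α', hα'⟩ : ∃ α' : ℝ, α' = (ls (b + ξ)).re + (ls (b - ξ)).re := ⟨_, rfl⟩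
  have hαα : α' = 2 * α := by rw [hα, hα']; linarith
  rw [← hα, ← hα', hαα]
  simp only [Finset.sum_add_distrib, Finset.sum_sub_distrib, ← Finset.mul_sum, ← Finset.sum_mul, hsh]
  ring

end Run7.h415.VU
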