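import Pool.Agent.Run7.h415.VU.P8a

/-! P8 of helper260's project VU: the critical point of the axis variable -/

set_option autoImplicit false

namespace Run7.h415.VU

open Filter Topology Metric Set Pool.Agent.W711.HT Pool.Agent.W293.HT
open scoped Real

lemma GH_mul {g : ℂ → ℂ} {c C r : ℝ} (n : ℕ) (hG : GH r r c C g) :
    GH r r (n * c) (n * C) (fun χ => (n : ℂ) * g χ) := by
  have e1 : deriv (fun χ => (n : ℂ) * g χ) = fun w => (n : ℂ) * deriv g w := by
    funext w
    exact deriv_const_mul_field _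
  have e2 : deriv (deriv (fun χ => (n : ℂ) * g χ)) = fun w => (n : ℂ) * deriv (deriv g) w := by
    rw [e1]
    funext w
    exact deriv_const_mul_field _
  have hn : (0 : ℝ) ≤ n := Nat.cast_nonneg n
  refine ⟨hG.an.const_mul _, fun w hw => ?_, fun w hw => ?_, fun w hw => ?_⟩
  · show (n : ℂ) * g (-w) = n * g w
    rw [hG.ev w hw]
  · rw [e2]
    have h1 := hG.d2 w hw
    have h2 : ((n : ℂ) * deriv (deriv g) w).re = n * (deriv (deriv g) w).re := by
      have : ((n : ℂ)) = ((n : ℝ) : ℂ) := by push_cast; rfl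
      rw [this, Complex.re_ofReal_mul]
    show ((n : ℂ) * deriv (deriv g) w).re ≤ -(n * c)
    rw [h2]
    nlinarith
  · rw [e2]
    show ‖(n : ℂ) * deriv (deriv g) w‖ ≤ n * C
    rw [norm_mul, Complex.norm_natCast]
    exact mul_le_mul_of_nonneg_left (hG.d2b w hw) hn

/-- existence of the critical point -/
lemma crit {g : ℂ → ℂ} {c r : ℝ} (hc : 0 < c) (hr : 0 < r) (hG : GH r r (c / 2) (2 * c) g)
    (hb : ∀ w ∈ Rc (2 * r) (2 * r), ‖deriv (deriv g) w + c‖ ≤ c / 4) (n : ℕ) (m : ℤ) (q : ℝ)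
    (hq : q = ‖((n * c : ℝ) : ℂ) - Complex.I * m / π‖) (hqn : n * c ≤ q) (hq0 : 0 < q)
    (hqr : 4 / q < r) :
    ∃ z : ℂ, ‖z‖ ≤ 2 / q ∧ Complex.I * m * z / π + Complex.I + deriv (fun χ => (n : ℂ) * g χ) z = 0 := by
  obtain ⟨Q, hQ⟩ : ∃ Q : ℂ, Q = ((n * c : ℝ) : ℂ) - Complex.I * m / π := ⟨_, rfl⟩
  rw [← hQ] at hq
  have hQ0 : Q ≠ 0 := by
    intro h
    rw [h, norm_zero] at hq
    linarith
  have hr2 : 0 < 2 / q := by positivity
  have h24 : 2 * (2 / q) = 4 / q := by ring
  have hm : ∀ w : ℂ, ‖w‖ < r → w ∈ Rc (2 * r) (2 * r) := fun w hw =>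
    Rc_mono (by linarith) (by linarith) (mem_Rc_of_norm le_rfl hw)
  have hn0 : (0 : ℝ) ≤ n := Nat.cast_nonneg n
  have hlip : ∀ w ∈ closedBall (0 : ℂ) (2 / q), ∀ w' ∈ closedBall (0 : ℂ) (2 / q),
      ‖(Complex.I + n * (deriv g w + c * w)) / Q - (Complex.I + n * (deriv g w' + c * w')) / Q‖ ≤
        1 / 4 * ‖w - w'‖ := by
    intro w hw w' hw'
    rw [mem_closedBall_zero_iff] at hw hw'
    have h1 := rem_lip hc hr hG hb (hm w' (by linarith)) (hm w (by linarith))
    have e1 : (Complex.I + n * (deriv g w + c * w)) / Q - (Complex.I + n * (deriv g w' + c * w')) / Q =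
        n * ((deriv g w + c * w) - (deriv g w' + c * w')) / Q := by ring
    rw [e1, norm_div, ← hq, norm_mul, Complex.norm_natCast, div_le_iff₀ hq0]
    calc n * ‖(deriv g w + c * w) - (deriv g w' + c * w')‖ ≤ n * (c / 4 * ‖w - w'‖) :=
          mul_le_mul_of_nonneg_left h1 hn0
      _ = (n * c) * (1 / 4 * ‖w - w'‖) := by ring
      _ ≤ q * (1 / 4 * ‖w - w'‖) := mul_le_mul_of_nonneg_right hqn (by positivity)
      _ = 1 / 4 * ‖w - w'‖ * q := by ring
  obtain ⟨zs, -, hzs⟩ := Pool.Agent.W19.HTFix.task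
    (fun w _ => (Complex.I + n * (deriv g w + c * w)) / Q) (2 / q) univ hr2 isOpen_univ (by
      intro p hp
      have h1 : p.1 ∈ Rc (3 * r) (3 * r) := by
        have h2 := hp.1
        rw [mem_ball_zero_iff, h24] at h2
        exact Rc_mono (by linarith) (by linarith) (mem_Rc_of_norm le_rfl (h2.trans hqr))
      have h3 : DifferentiableAt ℂ (fun p : ℂ × ℂ => deriv g p.1) p :=
        DifferentiableAt.comp p (hG.dda h1) differentiableAt_fst
      have h4 : DifferentiableAt ℂ (fun p : ℂ × ℂ => (c : ℂ) * p.1) p :=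
        differentiableAt_fst.const_mul _
      have h5 : DifferentiableAt ℂ
          (fun p : ℂ × ℂ => (Complex.I + n * (deriv g p.1 + c * p.1)) / Q) p := by
        simp only [div_eq_mul_inv]
        exact (((h3.fun_add h4).const_mul (n : ℂ)).const_add Complex.I).mul_const Q⁻¹
      exact h5.differentiableWithinAt)
    (fun w hw _ _ => by
      have h0 : (0 : ℂ) ∈ closedBall (0 : ℂ) (2 / q) := mem_closedBall_self hr2.le
      have h1 := hlip w hw 0 h0
      rw [hG.d0 hr hr, mul_zero, add_zero, mul_zero, add_zero, sub_zero] at h1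
      rw [mem_closedBall_zero_iff] at hw
      have h2 : ‖Complex.I / Q‖ = 1 / q := by rw [norm_div, Complex.norm_I, ← hq]
      calc ‖(Complex.I + n * (deriv g w + c * w)) / Q‖
          ≤ ‖(Complex.I + n * (deriv g w + c * w)) / Q - Complex.I / Q‖ + ‖Complex.I / Q‖ := by
            have := norm_add_le ((Complex.I + n * (deriv g w + c * w)) / Q - Complex.I / Q)
              (Complex.I / Q)
            rwa [sub_add_cancel] at this
        _ ≤ 1 / 4 * (2 / q) + 1 / q := by
            rw [h2]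
            have := mul_le_mul_of_nonneg_left hw (by norm_num : (0 : ℝ) ≤ 1 / 4)
            linarith
        _ ≤ 2 / q := by
            have : 0 < 1 / q := by positivity
            have e : 2 / q = 2 * (1 / q) := by ring
            rw [e]
            linarith)
    (fun w hw w' hw' _ _ => (hlip w hw w' hw').trans (by
      apply mul_le_mul_of_nonneg_right _ (norm_nonneg _)
      norm_num))
  obtain ⟨hz1, hz2, -⟩ := hzs 0 (mem_univ _)
  refine ⟨zs 0, hz1, ?_⟩
  have e2 : deriv (fun χ => (n : ℂ) * g χ) (zs 0) = n * deriv g (zs 0) := deriv_const_mul_field _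
  rw [e2]
  have h3 : (Complex.I + n * (deriv g (zs 0) + c * zs 0)) / Q = zs 0 := hz2
  rw [div_eq_iff hQ0, hQ] at h3
  push_cast at h3
  linear_combination h3

/-- properties of the critical point -/
lemma props {G : ℂ → ℂ} {b r : ℝ} (hb : 0 < b) (hr : 0 < r) (hG : GH r r (b / 2) (2 * b) G)
    (m : ℤ) (q ρ : ℝ) (hqb : b ≤ q) (hqm : |(m : ℝ)| / π ≤ q) (hq0 : 0 < q)
    (hρr : 2 * ρ ≤ r) (hqρ : 2 / q < ρ) (hK : 12 / q + 16 * ρ < b / 4 * ρ ^ 2) (z : ℂ)
    (hz : ‖z‖ ≤ 2 / q) (hcr : Complex.I * m * z / π + Complex.I + deriv G z = 0) :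
    z ∈ Rc ρ ρ ∧ 0 < z.im ∧ SAD (2 * m) G ρ z ∧ ‖qq (2 * m) G z - G 0‖ ≤ 12 / q ∧
      ∀ x : ℝ, |x| ≤ 4 / 3 * ρ → (qq (2 * m) G (x + z.im * Complex.I)).re ≤
        (qq (2 * m) G z).re - (b / 2) / 2 * (x - z.re) ^ 2 := by
  have hpi := Real.pi_pos
  have hρ0 : 0 < ρ := lt_trans (by positivity) hqρ
  obtain ⟨A, hA⟩ : ∃ A : ℝ, A = ((2 * m : ℤ) : ℝ) / (2 * π) := ⟨_, rfl⟩
  have hA' : A = m / π := by
    rw [hA]
    push_cast
    field_simp
  have hAq : |A| ≤ q := by
    rw [hA', abs_div, abs_of_pos hpi]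
    exact hqm
  have hzρ : ‖z‖ < ρ := by linarith
  have hz1 : z ∈ Rc ρ ρ := mem_Rc_of_norm le_rfl hzρ
  have hz2 : z ∈ Rc (2 * r) (2 * r) := Rc_mono (by linarith) (by linarith) hz1
  have hz3 : z ∈ Rc (3 * r) (3 * r) := Rc_mono (by linarith) (by linarith) hz1
  have hI2 : Complex.I * Complex.I = -1 := Complex.I_mul_I
  have hcrA : Complex.I * A * z + Complex.I + deriv G z = 0 := by
    rw [← hcr, hA']
    push_cast
    ring
  have hcr' : Complex.I * (2 * m : ℤ) * z / (2 * π) + Complex.I + deriv G z = 0 := by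
    rw [← hcrA, hA]
    push_cast
    ring
  have hz0 : z ≠ 0 := by
    intro h
    rw [h, hG.d0 hr hr, mul_zero, zero_add, add_zero] at hcrA
    exact Complex.I_ne_zero hcrA
  have hzn : 0 < ‖z‖ := norm_pos_iff.2 hz0
  have him : z.im = -(deriv G z * (starRingEnd ℂ) z).re := by
    have h1 : (Complex.I * A * z + Complex.I + deriv G z) * (starRingEnd ℂ) z = 0 := by
      rw [hcrA, zero_mul]
    have h2 := congrArg Complex.re h1
    simp only [Complex.mul_re, Complex.add_re, Complex.add_im, Complex.mul_im, Complex.I_re,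
      Complex.I_im, Complex.ofReal_re, Complex.ofReal_im, Complex.conj_re, Complex.conj_im,
      Complex.zero_re] at h2 ⊢
    nlinarith [h2]
  have hconc := hG.conc hr hr hz2
  have himpos : 0 < z.im := by
    have : 0 < b / 2 * ‖z‖ ^ 2 := by positivity
    linarith
  have hd := hG.d1 hr hr hz2
  have himle : z.im ≤ 2 * b * ‖z‖ ^ 2 := by
    rw [him]
    have h1 := Complex.abs_re_le_norm (deriv G z * (starRingEnd ℂ) z)
    rw [norm_mul, Complex.norm_conj] at h1
    have h2 := neg_abs_le (deriv G z * (starRingEnd ℂ) z).re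
    have h3 : ‖deriv G z‖ * ‖z‖ ≤ 2 * b * ‖z‖ * ‖z‖ := by gcongr
    nlinarith
  have hzsq : ‖z‖ ^ 2 ≤ 4 / q ^ 2 := by
    calc ‖z‖ ^ 2 ≤ (2 / q) ^ 2 := by gcongr
      _ = 4 / q ^ 2 := by rw [div_pow]; norm_num
  have hqq : b / q ≤ 1 := by rw [div_le_one hq0]; exact hqb
  have himA : |A| * z.im ≤ 8 := by
    calc |A| * z.im ≤ q * (2 * b * (4 / q ^ 2)) := by
          apply mul_le_mul hAq _ himpos.le hq0.le
          exact himle.trans (mul_le_mul_of_nonneg_left hzsq (by positivity))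
      _ = 8 * (b / q) := by field_simp; norm_num
      _ ≤ 8 := by linarith
  have himz : z.im ≤ 2 / q := by
    have h1 : z.im ≤ ‖z‖ := (le_abs_self _).trans (Complex.abs_im_le_norm z)
    linarith
  -- value
  have hval : ‖qq (2 * m) G z - G 0‖ ≤ 12 / q := by
    have e2 : qq (2 * m) G z - G 0 = Complex.I * A * z ^ 2 / 2 + Complex.I * z + (G z - G 0) := by
      unfold qq
      rw [hA]
      push_cast
      ring
    rw [e2]
    have n1 : ‖Complex.I * A * z ^ 2 / 2‖ ≤ 2 / q := by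
      rw [norm_div, norm_mul, norm_mul, Complex.norm_I, Complex.norm_real, Real.norm_eq_abs,
        norm_pow, one_mul, Complex.norm_ofNat]
      calc |A| * ‖z‖ ^ 2 / 2 ≤ q * (4 / q ^ 2) / 2 := by gcongr
        _ = 2 / q := by field_simp; norm_num
    have n2 : ‖Complex.I * z‖ ≤ 2 / q := by
      rw [norm_mul, Complex.norm_I, one_mul]; exact hz
    have n3 : ‖G z - G 0‖ ≤ 8 / q := by
      refine (hG.val hr hr (by positivity) hz2).trans ?_
      calc 2 * b * ‖z‖ ^ 2 ≤ 2 * b * (4 / q ^ 2) := by gcongr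
        _ = 8 / q * (b / q) := by field_simp; norm_num
        _ ≤ 8 / q * 1 := by gcongr
        _ = 8 / q := by ring
    calc _ ≤ ‖Complex.I * A * z ^ 2 / 2 + Complex.I * z‖ + ‖G z - G 0‖ := norm_add_le _ _
      _ ≤ ‖Complex.I * A * z ^ 2 / 2‖ + ‖Complex.I * z‖ + ‖G z - G 0‖ := by
          gcongr; exact norm_add_le _ _
      _ ≤ 2 / q + 2 / q + 8 / q := by gcongr
      _ = 12 / q := by ring
  -- points on the horizontal line
  have hline : ∀ x y : ℝ, |x| ≤ 4 / 3 * ρ → 0 ≤ y → y ≤ z.im →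
      (x : ℂ) + y * Complex.I ∈ Rc (2 * r) (2 * r) := by
    intro x y hx hy hy'
    refine ⟨?_, ?_⟩
    · have : |x| < 2 * r := lt_of_le_of_lt hx (by linarith)
      simpa using this
    · have : |y| < 2 * r := by rw [abs_of_nonneg hy]; linarith
      simpa using this
  have hre : |z.re| ≤ 4 / 3 * ρ := by have := hz1.1; linarith
  have hzri : (z.re : ℂ) + z.im * Complex.I = z := Complex.re_add_im z
  -- the line
  have hL : ∀ x : ℝ, |x| ≤ 4 / 3 * ρ → (qq (2 * m) G (x + z.im * Complex.I)).re ≤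
      (qq (2 * m) G z).re - (b / 2) / 2 * (x - z.re) ^ 2 := by
    intro x hx
    have h1 := quad_bound (f := fun x : ℝ => (qq (2 * m) G (x + z.im * Complex.I)).re)
      (f' := fun x : ℝ => (Complex.I * (2 * m : ℤ) * ((x : ℂ) + z.im * Complex.I) / (2 * π) +
        Complex.I + deriv G (x + z.im * Complex.I)).re)
      (f'' := fun x : ℝ => (Complex.I * (2 * m : ℤ) / (2 * π) +
        deriv (deriv G) (x + z.im * Complex.I)).re) (r := 4 / 3 * ρ) (c := b / 2) (x0 := z.re)
      (fun x hx => hasDerivAt_line (hasDerivAt_qq (2 * m) (hG.da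
        (Rc_mono (by linarith) (by linarith) (hline x z.im hx himpos.le le_rfl)))))
      (fun x hx => hasDerivAt_line (Q := fun w => Complex.I * (2 * m : ℤ) * w / (2 * π) + Complex.I +
        deriv G w) (hG.hasDerivAt_dqq (2 * m)
        (Rc_mono (by linarith) (by linarith) (hline x z.im hx himpos.le le_rfl))))
      (fun x hx => by
        show (Complex.I * (2 * m : ℤ) / (2 * π) + deriv (deriv G) (x + z.im * Complex.I)).re ≤ -(b / 2)
        rw [Complex.add_re, re_I_a, zero_add]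
        exact hG.d2 _ (hline x z.im hx himpos.le le_rfl))
      hre (by
        show (Complex.I * (2 * m : ℤ) * ((z.re : ℂ) + z.im * Complex.I) / (2 * π) + Complex.I +
          deriv G (z.re + z.im * Complex.I)).re = 0
        rw [hzri, hcr', Complex.zero_re]) hx
    simp only [hzri] at h1
    exact h1
  -- the real axis
  have hR : ∀ x : ℝ, |x| ≤ ρ → (G x).re ≤ (G 0).re - (b / 2) / 2 * x ^ 2 := by
    intro x hx
    have hr2 : ∀ x : ℝ, |x| ≤ ρ → (x : ℂ) + (0 : ℝ) * Complex.I ∈ Rc (2 * r) (2 * r) :=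
      fun x hx => hline x 0 (by linarith) le_rfl himpos.le
    have h1 := quad_bound (f := fun x : ℝ => (G (x + (0 : ℝ) * Complex.I)).re)
      (f' := fun x : ℝ => (deriv G (x + (0 : ℝ) * Complex.I)).re)
      (f'' := fun x : ℝ => (deriv (deriv G) (x + (0 : ℝ) * Complex.I)).re) (r := ρ) (c := b / 2)
      (x0 := 0)
      (fun x hx => hasDerivAt_line
        (hG.da (Rc_mono (by linarith) (by linarith) (hr2 x hx))).hasDerivAt)
      (fun x hx => hasDerivAt_line
        (hG.dda (Rc_mono (by linarith) (by linarith) (hr2 x hx))).hasDerivAt)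
      (fun x hx => hG.d2 _ (hr2 x hx)) (by simpa using hρ0.le)
      (by
        show (deriv G ((0 : ℝ) + (0 : ℝ) * Complex.I)).re = 0
        simp [hG.d0 hr hr]) hx
    simpa using h1
  have hside : ∀ σ y : ℝ, |σ| = ρ → 0 ≤ y → y ≤ z.im →
      (qq (2 * m) G (σ + y * Complex.I)).re < (qq (2 * m) G z).re := by
    intro σ y hσ hy hy'
    have hσ2 : σ ^ 2 = ρ ^ 2 := by rw [← sq_abs, hσ]
    have h1 : (qq (2 * m) G (σ + y * Complex.I)).re =
        -(A * σ * y) - y + (G (σ + y * Complex.I)).re := by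
      have e3 : qq (2 * m) G (σ + y * Complex.I) = Complex.I * A * (σ + y * Complex.I) ^ 2 / 2 +
          Complex.I * (σ + y * Complex.I) + G (σ + y * Complex.I) := by
        unfold qq
        rw [hA]
        push_cast
        ring
      have e4 : Complex.I * A * ((σ : ℂ) + y * Complex.I) ^ 2 / 2 +
          Complex.I * (σ + y * Complex.I) = ((-(A * σ * y) - y : ℝ) : ℂ) +
            ((A * (σ ^ 2 - y ^ 2) / 2 + σ : ℝ) : ℂ) * Complex.I := by
        push_cast
        linear_combination ((A : ℂ) * σ * y + (y : ℂ) + (A : ℂ) * (y : ℂ) ^ 2 * Complex.I / 2) * hI2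
      rw [e3, e4, Complex.add_re, Complex.add_re, Complex.ofReal_re, Complex.re_ofReal_mul,
        Complex.I_re, mul_zero, add_zero]
    have hyρ : y ≤ ρ := by linarith
    -- |G(σ + iy) - G(σ)| ≤ 8 ρ
    have h2 : ‖G (σ + y * Complex.I) - G σ‖ ≤ 8 * ρ := by
      have h3 := Convex.norm_image_sub_le_of_norm_deriv_le (𝕜 := ℂ) (f := G) (C := 2 * b * (2 * ρ))
        (s := Rc (2 * r) (2 * r) ∩ closedBall 0 (2 * ρ)) (x := (σ : ℂ)) (y := (σ : ℂ) + y * Complex.I)
        (fun x hx => hG.da (Rc_mono (by linarith) (by linarith) hx.1))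
        (fun x hx => (hG.d1 hr hr hx.1).trans
          (mul_le_mul_of_nonneg_left (by simpa using hx.2) (by positivity)))
        ((convex_Rc _ _).inter (convex_closedBall _ _))
        ⟨by simpa using hline σ 0 (by linarith) le_rfl himpos.le, by
          rw [mem_closedBall_zero_iff, Complex.norm_real, Real.norm_eq_abs, hσ]
          linarith⟩
        ⟨hline σ y (by linarith) hy hy', by
          rw [mem_closedBall_zero_iff]
          refine (norm_add_le _ _).trans ?_
          rw [Complex.norm_real, Real.norm_eq_abs, hσ, norm_mul, Complex.norm_I, mul_one,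
            Complex.norm_real, Real.norm_eq_abs, abs_of_nonneg hy]
          linarith⟩
      refine h3.trans ?_
      rw [add_sub_cancel_left, norm_mul, Complex.norm_I, Complex.norm_real, Real.norm_eq_abs,
        abs_of_nonneg hy, mul_one]
      calc 2 * b * (2 * ρ) * y ≤ 2 * b * (2 * ρ) * (2 / q) := by
            apply mul_le_mul_of_nonneg_left _ (by positivity)
            linarith
        _ = 8 * ρ * (b / q) := by ring
        _ ≤ 8 * ρ * 1 := by gcongr
        _ = 8 * ρ := by ring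
    have h4 : (G (σ + y * Complex.I)).re ≤ (G σ).re + 8 * ρ := by
      have h5 := (Complex.re_le_norm (G (σ + y * Complex.I) - G σ)).trans h2
      rw [Complex.sub_re] at h5
      linarith
    have h5 := hR σ hσ.le
    rw [hσ2] at h5
    have h6 : (G 0).re - 12 / q ≤ (qq (2 * m) G z).re := by
      have h7 := (Complex.abs_re_le_norm (qq (2 * m) G z - G 0)).trans hval
      rw [Complex.sub_re, abs_le] at h7
      linarith [h7.1]
    have h8 : -(A * σ * y) ≤ 8 * ρ := by
      have h9 := neg_abs_le (A * σ * y)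
      rw [abs_mul, abs_mul, hσ, abs_of_nonneg hy] at h9
      have h10 : |A| * y ≤ 8 := by
        have := mul_le_mul_of_nonneg_left hy' (abs_nonneg A)
        linarith
      nlinarith
    rw [h1]
    linarith
  refine ⟨hz1, himpos, ⟨?_, ?_, ?_, ?_, ?_⟩, hval, hL⟩
  · intro h
    rw [Complex.sin_eq_zero_iff] at h
    obtain ⟨k, hk⟩ := h
    have : z.im = 0 := by
      rw [hk]
      have : ((k : ℂ) * π) = ((k * π : ℝ) : ℂ) := by push_cast; ring
      rw [this, Complex.ofReal_im]
    linarith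
  · rw [hG.deriv_qq (2 * m) hz3]; exact hcr'
  · rw [hG.deriv2_qq (2 * m) hz3, Complex.add_re, re_I_a, zero_add]
    linarith [hG.d2 z hz2]
  · intro x hx hxne
    refine (hL x (by linarith)).trans_lt ?_
    have : 0 < (x - z.re) ^ 2 := by
      have := sub_ne_zero.2 hxne
      positivity
    nlinarith
  · intro y hy hy'
    refine ⟨hside ρ y (abs_of_pos hρ0) hy hy', ?_⟩
    have := hside (-ρ) y (by rw [abs_neg, abs_of_pos hρ0]) hy hy'
    simpa using this

/-- **P8** -/
theorem p8 (g : ℂ → ℂ) (c δ : ℝ) (hc : 0 < c) (hδ : 0 < δ)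
    (hg : ∀ z ∈ ball (0 : ℂ) δ, AnalyticAt ℂ g z ∧ g (-z) = g z)
    (hg2 : deriv (deriv g) 0 = ((-c : ℝ) : ℂ)) :
    ∃ C K₀ : ℝ, 0 < C ∧ 0 < K₀ ∧ ∀ K : ℝ, K₀ ≤ K → ∃ n₀ : ℕ, 1 ≤ n₀ ∧ ∀ n : ℕ, n₀ ≤ n →
    2 * (K / n) < δ ∧ K / n ≤ 1 ∧ ∀ m : ℤ, ∃ z : ℂ, z ∈ Rc (K / n / 4) (K / n / 4) ∧ 0 < z.im ∧
      ‖z‖ ≤ C / (n + |(m : ℝ)|) ∧
      Complex.I * m * z / π + Complex.I + deriv (fun χ => n * g χ) z = 0 ∧
      SAD (2 * m) (fun χ => n * g χ) (K / n / 4) z ∧
      ‖qq (2 * m) (fun χ => n * g χ) z - n * g 0‖ ≤ C / (n + |(m : ℝ)|) ∧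
      ∃ c' : ℝ, 0 < c' ∧ ∀ x : ℝ, |x| ≤ K / n / 3 →
        (qq (2 * m) (fun χ => n * g χ) (x + z.im * Complex.I)).re ≤
          (qq (2 * m) (fun χ => n * g χ) z).re - c' / 2 * (x - z.re) ^ 2 := by
  obtain ⟨r, hr, hrδ, hG, hb⟩ := exists_GH g c δ hc hδ hg hg2
  have hpi := Real.pi_pos
  obtain ⟨c1, hc1⟩ : ∃ c1 : ℝ, c1 = min c (1 / π) / 2 := ⟨_, rfl⟩
  have hc10 : 0 < c1 := by
    rw [hc1]
    have : 0 < min c (1 / π) := lt_min hc (by positivity)
    positivity
  refine ⟨12 / c1, 64 / c * (5 + 12 / c) + 1, by positivity, by positivity, ?_⟩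
  intro K hK
  have hK1 : 1 ≤ K := by
    have : 0 < 64 / c * (5 + 12 / c) := by positivity
    linarith
  have hK0 : 0 < K := by linarith
  obtain ⟨e, he⟩ : ∃ e : ℝ, e = min (min 1 (δ / 4)) r := ⟨_, rfl⟩
  have he0 : 0 < e := by rw [he]; exact lt_min (lt_min one_pos (by positivity)) hr
  have he1 : e ≤ 1 := by rw [he]; exact (min_le_left _ _).trans (min_le_left _ _)
  have he2 : e ≤ δ / 4 := by rw [he]; exact (min_le_left _ _).trans (min_le_right _ _)
  have he3 : e ≤ r := by rw [he]; exact min_le_right _ _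
  refine ⟨⌈K / e⌉₊ + 1, by omega, ?_⟩
  intro n hn
  have hn1 : (1 : ℝ) ≤ n := by
    have : 1 ≤ n := by omega
    exact_mod_cast this
  have hn0 : (0 : ℝ) < n := by linarith
  have hKn : K / n ≤ e := by
    have h1 : K / e ≤ (⌈K / e⌉₊ : ℝ) := Nat.le_ceil _
    have h2 : (⌈K / e⌉₊ : ℝ) + 1 ≤ n := by exact_mod_cast hn
    rw [div_le_iff₀ he0] at h1
    rw [div_le_iff₀ hn0]
    nlinarith
  have hKn0 : 0 < K / n := by positivity
  refine ⟨by linarith, by linarith, ?_⟩
  intro m
  obtain ⟨q, hq⟩ : ∃ q : ℝ, q = ‖((n * c : ℝ) : ℂ) - Complex.I * m / π‖ := ⟨_, rfl⟩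
  have e1 : ((n * c : ℝ) : ℂ) - Complex.I * m / π =
      ((n * c : ℝ) : ℂ) + ((-(m / π) : ℝ) : ℂ) * Complex.I := by
    push_cast
    ring
  have hqn : n * c ≤ q := by
    have h1 := Complex.abs_re_le_norm (((n * c : ℝ) : ℂ) - Complex.I * m / π)
    rw [← hq, e1] at h1
    have h2 : (((n * c : ℝ) : ℂ) + ((-(m / π) : ℝ) : ℂ) * Complex.I).re = n * c := by
      rw [Complex.add_re, Complex.ofReal_re, Complex.re_ofReal_mul, Complex.I_re, mul_zero, add_zero]
    rw [h2] at h1
    exact (le_abs_self _).trans h1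
  have hqm : |(m : ℝ)| / π ≤ q := by
    have h1 := Complex.abs_im_le_norm (((n * c : ℝ) : ℂ) - Complex.I * m / π)
    rw [← hq, e1] at h1
    have h2 : (((n * c : ℝ) : ℂ) + ((-(m / π) : ℝ) : ℂ) * Complex.I).im = -(m / π) := by
      rw [Complex.add_im, Complex.ofReal_im, Complex.im_ofReal_mul, Complex.I_im, mul_one, zero_add]
    rw [h2, abs_neg, abs_div, abs_of_pos hpi] at h1
    exact h1
  have hnc : 0 < n * c := by positivity
  have hq0 : 0 < q := by linarith
  have hsum : c1 * (n + |(m : ℝ)|) ≤ q := by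
    have h1 : min c (1 / π) * n ≤ n * c := by
      rw [mul_comm]
      exact mul_le_mul_of_nonneg_left (min_le_left _ _) hn0.le
    have h2 : min c (1 / π) * |(m : ℝ)| ≤ |(m : ℝ)| / π := by
      calc min c (1 / π) * |(m : ℝ)| ≤ 1 / π * |(m : ℝ)| :=
            mul_le_mul_of_nonneg_right (min_le_right _ _) (abs_nonneg _)
        _ = |(m : ℝ)| / π := by ring
    rw [hc1]
    nlinarith
  have hnm : 0 < (n : ℝ) + |(m : ℝ)| := by
    have := abs_nonneg (m : ℝ)
    linarith
  have hK8 : 320 / c < K := by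
    have : 320 / c ≤ 64 / c * (5 + 12 / c) := by
      have h1 : 0 ≤ 64 / c * (12 / c) := by positivity
      have h2 : 64 / c * (5 + 12 / c) = 320 / c + 64 / c * (12 / c) := by ring
      linarith
    linarith
  have h1q : 1 / q ≤ 1 / (n * c) := one_div_le_one_div_of_le hnc hqn
  have hKc : 320 < K * c := by rwa [div_lt_iff₀ hc] at hK8
  have h2q : 80 / q < K / n / 4 := by
    calc 80 / q = 80 * (1 / q) := by ring
      _ ≤ 80 * (1 / (n * c)) := by linarith
      _ < K / n / 4 := by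
          rw [mul_one_div, div_div, div_lt_div_iff₀ (by positivity) (by positivity)]
          nlinarith
  have h3q : 4 / q < r := by
    have h4 : 4 / q ≤ 80 / q := div_le_div_of_nonneg_right (by norm_num) hq0.le
    linarith
  obtain ⟨z, hz, hcr⟩ := crit hc hr hG hb n m q hq hqn hq0 h3q
  have hG' : GH r r (n * c / 2) (2 * (n * c)) (fun χ => (n : ℂ) * g χ) := by
    have h4 := GH_mul n hG
    have e2 : (n : ℝ) * (c / 2) = n * c / 2 := by ring
    have e3 : (n : ℝ) * (2 * c) = 2 * (n * c) := by ring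
    rwa [e2, e3] at h4
  have hside : 12 / q + 16 * (K / n / 4) < n * c / 4 * (K / n / 4) ^ 2 := by
    have h4 : 12 / q ≤ 12 / (n * c) := by
      calc 12 / q = 12 * (1 / q) := by ring
        _ ≤ 12 * (1 / (n * c)) := by linarith
        _ = _ := by ring
    have h5 : n * c / 4 * (K / n / 4) ^ 2 = (c * K ^ 2 / 64) / n := by field_simp; norm_num
    have h6 : 12 / (n * c) + 16 * (K / n / 4) = (12 / c + 4 * K) / n := by field_simp; ring
    have h7 : 12 / c + 4 * K < c * K ^ 2 / 64 := by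
      have h8 : 64 / c * (5 + 12 / c) < K := by linarith
      have h9 : 5 + 12 / c < c * K / 64 := by
        have h10 : 64 / c * (5 + 12 / c) = (5 + 12 / c) / (c / 64) := by field_simp
        rw [h10, div_lt_iff₀ (by positivity)] at h8
        linarith
      have h11 : (5 + 12 / c) * K < c * K / 64 * K := mul_lt_mul_of_pos_right h9 hK0
      have h12 : 0 < 12 / c := by positivity
      nlinarith
    rw [h5]
    refine lt_of_le_of_lt (add_le_add h4 le_rfl) ?_
    rw [h6]
    exact div_lt_div_of_pos_right h7 hn0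
  obtain ⟨p1, p2, p3, p4, p5⟩ := props hnc hr hG' m q (K / n / 4) hqn hqm hq0 (by linarith)
    (lt_of_le_of_lt (div_le_div_of_nonneg_right (by norm_num) hq0.le) h2q) hside z hz hcr
  have hqC : 12 / q ≤ 12 / c1 / (n + |(m : ℝ)|) := by
    rw [div_div]
    exact div_le_div_of_nonneg_left (by norm_num) (by positivity) hsum
  refine ⟨z, p1, p2, ?_, hcr, p3, p4.trans hqC, n * c / 2, by positivity, fun x hx => p5 x ?_⟩
  · refine hz.trans (le_trans ?_ hqC)
    exact div_le_div_of_nonneg_right (by norm_num) hq0.le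
  · refine hx.trans (le_of_eq (by ring))

end Run7.h415.VU
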