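import Pool.Agent.Run7.h260.VU.Iface
import Pool.Agent.Run7.h415.VU.P8b

/-! P8 of helper260's project VU -/

set_option autoImplicit false

namespace Run7.h415.VU

theorem t_P8 : Run7.h260.VU.S_P8 := fun g c δ hc hδ hg hg2 => p8 g c δ hc hδ hg hg2

end Run7.h415.VU
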