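import Pool.Agent.W293.HT.CP2
import Pool.Agent.W19.HT.Fix

/-! P8 of helper260's project VU: the critical point of the axis variable -/

set_option autoImplicit false

namespace Run7.h415.VU

open Filter Topology Metric Set Pool.Agent.W711.HT Pool.Agent.W293.HT
open scoped Real

/-- the constants of `g` near `0` -/
lemma exists_GH (g : ℂ → ℂ) (c δ : ℝ) (hc : 0 < c) (hδ : 0 < δ)
    (hg : ∀ z ∈ ball (0 : ℂ) δ, AnalyticAt ℂ g z ∧ g (-z) = g z)
    (h2 : deriv (deriv g) 0 = ((-c : ℝ) : ℂ)) :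
    ∃ r : ℝ, 0 < r ∧ 12 * r < δ ∧ GH r r (c / 2) (2 * c) g ∧
      ∀ w ∈ Rc (2 * r) (2 * r), ‖deriv (deriv g) w + c‖ ≤ c / 4 := by
  have hball : (ball (0 : ℂ) δ) ∈ 𝓝 (0 : ℂ) := ball_mem_nhds _ hδ
  have han0 : AnalyticAt ℂ g 0 := (hg 0 (mem_ball_self hδ)).1
  have hcont : ContinuousAt (deriv (deriv g)) 0 := han0.deriv.deriv.continuousAt
  have h3 : ∀ᶠ w in 𝓝 (0 : ℂ), ‖deriv (deriv g) w + c‖ < c / 4 := by
    have h4 : Tendsto (fun w => ‖deriv (deriv g) w + c‖) (𝓝 0) (𝓝 ‖deriv (deriv g) 0 + c‖) :=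
      (hcont.add continuousAt_const).norm
    rw [h2] at h4
    have h5 : ‖((-c : ℝ) : ℂ) + c‖ = 0 := by
      push_cast
      simp
    rw [h5] at h4
    exact h4.eventually_lt_const (by positivity)
  obtain ⟨r', hr', h4⟩ := Metric.eventually_nhds_iff_ball.1 h3
  obtain ⟨r, hr⟩ : ∃ r : ℝ, r = min (δ / 16) (r' / 8) := ⟨_, rfl⟩
  have hr0 : 0 < r := by rw [hr]; exact lt_min (by positivity) (by positivity)
  have hr1 : r ≤ δ / 16 := by rw [hr]; exact min_le_left _ _
  have hr2 : r ≤ r' / 8 := by rw [hr]; exact min_le_right _ _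
  have hmem : ∀ (k : ℝ) (w : ℂ), w ∈ Rc (k * r) (k * r) → ‖w‖ < 2 * (k * r) := by
    intro k w hw
    have := Complex.norm_le_abs_re_add_abs_im w
    have h5 := hw.1
    have h6 := hw.2
    linarith
  have hb : ∀ w ∈ Rc (2 * r) (2 * r), ‖deriv (deriv g) w + c‖ ≤ c / 4 := by
    intro w hw
    refine (h4 w ?_).le
    rw [mem_ball_zero_iff]
    have := hmem 2 w hw
    linarith
  refine ⟨r, hr0, by linarith, ⟨?_, ?_, ?_, ?_⟩, hb⟩
  · intro w hw
    have h5 := hmem 3 w hw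
    exact (hg w (by rw [mem_ball_zero_iff]; linarith)).1.differentiableAt.differentiableWithinAt
  · intro w hw
    have h5 := hmem 3 w hw
    exact (hg w (by rw [mem_ball_zero_iff]; linarith)).2
  · intro w hw
    have h5 := (Complex.re_le_norm (deriv (deriv g) w + c)).trans (hb w hw)
    rw [Complex.add_re, Complex.ofReal_re] at h5
    linarith
  · intro w hw
    have h5 : ‖deriv (deriv g) w‖ ≤ ‖deriv (deriv g) w + c‖ + ‖(c : ℂ)‖ := by
      have := norm_sub_le (deriv (deriv g) w + c) (c : ℂ)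
      simpa using this
    rw [Complex.norm_real, Real.norm_eq_abs, abs_of_pos hc] at h5
    have := hb w hw
    linarith

/-- the remainder of the derivative is Lipschitz with a small constant -/
lemma rem_lip {g : ℂ → ℂ} {c r : ℝ} (hc : 0 < c) (hr : 0 < r) (hG : GH r r (c / 2) (2 * c) g)
    (hb : ∀ w ∈ Rc (2 * r) (2 * r), ‖deriv (deriv g) w + c‖ ≤ c / 4) {w w' : ℂ}
    (hw : w ∈ Rc (2 * r) (2 * r)) (hw' : w' ∈ Rc (2 * r) (2 * r)) :
    ‖(deriv g w' + c * w') - (deriv g w + c * w)‖ ≤ c / 4 * ‖w' - w‖ := by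
  have hd : ∀ x ∈ Rc (2 * r) (2 * r), HasDerivAt (fun x => deriv g x + c * x)
      (deriv (deriv g) x + c) x := by
    intro x hx
    have h1 : HasDerivAt (fun x : ℂ => (c : ℂ) * x) (c : ℂ) x := by
      simpa using (hasDerivAt_id x).const_mul (c : ℂ)
    exact (hG.dda (Rc_mono (by linarith) (by linarith) hx)).hasDerivAt.add h1
  exact Convex.norm_image_sub_le_of_norm_deriv_le (𝕜 := ℂ) (f := fun x => deriv g x + c * x)
    (fun x hx => (hd x hx).differentiableAt)
    (fun x hx => by rw [(hd x hx).deriv]; exact hb x hx) (convex_Rc _ _) hw hw'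

end Run7.h415.VU
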